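import Mathlib
import Pool.Graph.R_pool_sql_team_seeded_3997aac3.Q74.Shift.Spaces

/-!
# Periodic shadowing of bilateral weighted shifts does not depend on the sequence space

Let `X ≠ 0` be any Banach space of scalar sequences indexed by `ℤ` which tend to zero at `± ∞`, such
that a sequence whose moduli are at most those of a translate of an element `x` of `X` belongs to `X`
and has norm at most `‖x‖` (solid and translation invariant; for example `ℓ_p(ℤ)`, `1 ≤ p < ∞`, and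
`c₀(ℤ)`).  For every bounded weight `w` bounded away from zero, the weighted backward shift `B_w` is an
invertible bounded operator of `X`, and it has the periodic shadowing property on `X` if and only if
`w` satisfies an explicit condition in which `X` does not occur.  So the property is the same for all
these spaces.
-/

set_option autoImplicit false

open Filter Topology
open scoped ENNReal ZeroAtInfty

namespace Pool.Agent.Results.MP_2e038a_an.AllSequenceSpaces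

universe u v

section
variable {𝕜 : Type*} {X : Type*} [RCLike 𝕜] [NormedAddCommGroup X] [NormedSpace 𝕜 X]

/-- `T^j y`, `j ∈ ℤ`. -/
def orb (T : X ≃L[𝕜] X) (j : ℤ) (y : X) : X := (T ^ j) y

/-- `y` is a periodic point of `T`. -/
def IsPeriodicPoint (T : X ≃L[𝕜] X) (y : X) : Prop := ∃ q : ℕ, 0 < q ∧ orb T q y = y

/-- `x` is a two-sided `δ`-pseudotrajectory of `T`. -/
def IsPseudotrajectory (T : X ≃L[𝕜] X) (δ : ℝ) (x : ℤ → X) : Prop := ∀ j, ‖T (x j) - x (j + 1)‖ < δ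

/-- The periodic shadowing property of an invertible bounded operator `T`: for every `ε > 0` there is
`δ > 0` such that every periodic two-sided `δ`-pseudotrajectory is `ε`-shadowed by a periodic point. -/
def PeriodicShadowingProperty (T : X ≃L[𝕜] X) : Prop :=
  ∀ ε : ℝ, 0 < ε → ∃ δ : ℝ, 0 < δ ∧ ∀ x : ℤ → X, (∃ q : ℕ, 0 < q ∧ ∀ j : ℤ, x (j + q) = x j) →
    IsPseudotrajectory T δ x → ∃ y : X, IsPeriodicPoint T y ∧ ∀ j : ℤ, ‖x j - orb T j y‖ < ε

theorem psp_iff_lib (T : X ≃L[𝕜] X) : PeriodicShadowingProperty T ↔ Pool.Agent.Q74.Shift.PSP T := by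
  unfold PeriodicShadowingProperty Pool.Agent.Q74.Shift.PSP IsPeriodicPoint IsPseudotrajectory orb
  simp only [zpow_natCast]

end

/-- The coordinate map `c` makes `X` a solid translation invariant space of sequences on `ℤ` that tend
to zero: `c` is injective; if `|y n| ≤ |c x (n + i)|` for all `n`, for some fixed `i`, then `y` is the
sequence of an element of `X` of norm at most `‖x‖`; the sequence `c x` tends to zero. -/
structure IsSequenceSpace {𝕜 : Type*} {X : Type*} [RCLike 𝕜] [NormedAddCommGroup X]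
    [NormedSpace 𝕜 X] (c : X →ₗ[𝕜] (ℤ → 𝕜)) : Prop where
  injective : Function.Injective c
  solid : ∀ (x : X) (i : ℤ) (y : ℤ → 𝕜), (∀ n, ‖y n‖ ≤ ‖c x (n + i)‖) →
    ∃ b : X, c b = y ∧ ‖b‖ ≤ ‖x‖
  vanish : ∀ x : X, Tendsto (c x) cofinite (𝓝 0)

/-- `T` is the weighted backward shift `B_w`, the coordinates of `x` being `c x`. -/
def IsShift {𝕜 : Type*} {X : Type*} [RCLike 𝕜] [NormedAddCommGroup X] [NormedSpace 𝕜 X]
    (c : X →ₗ[𝕜] (ℤ → 𝕜)) (w : ℤ → 𝕜) (T : X ≃L[𝕜] X) : Prop :=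
  ∀ x n, c (T x) n = w (n + 1) * c x (n + 1)

/-- `P(n,i) = |w_{n+1} ⋯ w_{n+i}|`. -/
noncomputable def P {𝕜 : Type*} [RCLike 𝕜] (w : ℤ → 𝕜) (n : ℤ) (i : ℕ) : ℝ :=
  ∏ k ∈ Finset.range i, ‖w (n + k + 1)‖

/-- There are `C > 0`, `ρ ∈ (0,1)` and a set `A` of integers such that `F(n,i) ≤ C ρ^i` for `n ∈ A` and
`G(n-i,i) ≤ C ρ^i` for `n ∉ A`, for all `i ≥ 0`. -/
def Splits (F G : ℤ → ℕ → ℝ) : Prop :=
  ∃ (C ρ : ℝ) (A : Set ℤ), 0 < C ∧ 0 < ρ ∧ ρ < 1 ∧ (∀ n ∈ A, ∀ i : ℕ, F n i ≤ C * ρ ^ i) ∧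
    ∀ n ∉ A, ∀ i : ℕ, G (n - i) i ≤ C * ρ ^ i

/-- The condition on the weight: there are `C > 0`, `ρ ∈ (0,1)` and a set `A` of integers such that
either `P(n,i) ≤ C ρ^i` for `n ∈ A` and `P(n-i,i)⁻¹ ≤ C ρ^i` for `n ∉ A` (all `i ≥ 0`), or
`P(n,i)⁻¹ ≤ C ρ^i` for `n ∈ A` and `P(n-i,i) ≤ C ρ^i` for `n ∉ A` (all `i ≥ 0`). -/
def WeightCondition {𝕜 : Type*} [RCLike 𝕜] (w : ℤ → 𝕜) : Prop :=
  Splits (P w) (fun n i => (P w n i)⁻¹) ∨ Splits (fun n i => (P w n i)⁻¹) (P w)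

theorem lp_linear (𝕜 : Type*) [RCLike 𝕜] (p : ℝ≥0∞) [Fact (1 ≤ p)] :
    IsLinearMap 𝕜 fun (x : lp (fun _ : ℤ => 𝕜) p) (n : ℤ) => x n := ⟨fun _ _ => rfl, fun _ _ => rfl⟩

theorem c0_linear (𝕜 : Type*) [RCLike 𝕜] :
    IsLinearMap 𝕜 fun (x : C₀(ℤ, 𝕜)) (n : ℤ) => x n := ⟨fun _ _ => rfl, fun _ _ => rfl⟩

/-- The coordinates on `ℓ_p(ℤ)`. -/
noncomputable def lpCoord (𝕜 : Type*) [RCLike 𝕜] (p : ℝ≥0∞) [Fact (1 ≤ p)] :
    lp (fun _ : ℤ => 𝕜) p →ₗ[𝕜] (ℤ → 𝕜) :=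
  IsLinearMap.mk' (fun (x : lp (fun _ : ℤ => 𝕜) p) (n : ℤ) => x n) (lp_linear 𝕜 p)

/-- The coordinates on `c₀(ℤ)`. -/
noncomputable def c0Coord (𝕜 : Type*) [RCLike 𝕜] : C₀(ℤ, 𝕜) →ₗ[𝕜] (ℤ → 𝕜) :=
  IsLinearMap.mk' (fun (x : C₀(ℤ, 𝕜)) (n : ℤ) => x n) (c0_linear 𝕜)

section
variable {𝕜 : Type*} {X : Type*} [RCLike 𝕜] [NormedAddCommGroup X] [NormedSpace 𝕜 X]
  {c : X →ₗ[𝕜] (ℤ → 𝕜)}

theorem exists_unit [Nontrivial X] (hc : IsSequenceSpace c) :
    ∃ e : X, e ≠ 0 ∧ c e = Pi.single 0 1 := by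
  obtain ⟨x, hx⟩ := exists_ne (0 : X)
  obtain ⟨n, hn⟩ : ∃ n, c x n ≠ 0 := by
    by_contra h
    push Not at h
    exact hx (hc.injective (by rw [map_zero]; exact funext h))
  obtain ⟨b, hb, -⟩ := hc.solid x n (Pi.single 0 (c x n)) (fun m => by
    rcases eq_or_ne m 0 with rfl | hm
    · simp
    · simp [hm])
  refine ⟨(c x n)⁻¹ • b, fun h => ?_, ?_⟩
  · rcases smul_eq_zero.1 h with h | h
    · exact hn (inv_eq_zero.1 h)
    · have := congrFun hb 0
      rw [h, map_zero, Pi.single_eq_same] at this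
      exact hn this.symm
  · rw [map_smul, hb]
    ext m
    rcases eq_or_ne m 0 with rfl | hm
    · simp [hn]
    · simp [hm]

theorem exists_scaled (hc : IsSequenceSpace c) (x : X) (i : ℤ) (C : ℝ) (y : ℤ → 𝕜) (hC : 0 ≤ C)
    (h : ∀ n, ‖y n‖ ≤ C * ‖c x (n + i)‖) : ∃ b : X, c b = y ∧ ‖b‖ ≤ C * ‖x‖ := by
  obtain ⟨b, h1, h2⟩ := hc.solid ((C : 𝕜) • x) i y (fun n => by
    rw [map_smul, Pi.smul_apply, norm_smul, RCLike.norm_ofReal, abs_of_nonneg hC]
    exact h n)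
  refine ⟨b, h1, h2.trans_eq ?_⟩
  rw [norm_smul, RCLike.norm_ofReal, abs_of_nonneg hC]

/-- The structure used by the library. -/
theorem exists_seq [Nontrivial X] (hc : IsSequenceSpace c) :
    ∃ (S : Pool.Agent.Q74.Shift.SeqSpace 𝕜 X) (κ : ℝ), 0 < κ ∧ ∀ x n, S.c x n = (κ : 𝕜) * c x n := by
  obtain ⟨e, he, hce⟩ := exists_unit hc
  have hκ : 0 < ‖e‖ := norm_pos_iff.2 he
  have hκ' : ((‖e‖ : ℝ) : 𝕜) ≠ 0 := by exact_mod_cast hκ.ne'
  have hn : ‖((‖e‖ : ℝ) : 𝕜)‖ = ‖e‖ := by simp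
  refine ⟨{ c := ((‖e‖ : ℝ) : 𝕜) • c, inj := ?_, coord_le := ?_, dom := ?_, lim := ?_, single := ?_ },
    ‖e‖, hκ, fun x n => rfl⟩
  · intro x y h
    refine hc.injective (funext fun n => ?_)
    exact mul_left_cancel₀ hκ' (h n)
  · intro x n
    obtain ⟨b, h1, h2⟩ := hc.solid x n (Pi.single 0 (c x n)) (fun m => by
      rcases eq_or_ne m 0 with rfl | hm
      · simp
      · simp [hm])
    have hb : b = c x n • e := hc.injective (by
      rw [h1, map_smul, hce]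
      ext m
      rcases eq_or_ne m 0 with rfl | hm
      · simp
      · simp [hm])
    show ‖((‖e‖ : ℝ) : 𝕜) * c x n‖ ≤ ‖x‖
    rw [norm_mul, hn, mul_comm, ← norm_smul, ← hb]
    exact h2
  · intro x i C y hC h
    obtain ⟨b, h1, h2⟩ := exists_scaled hc x i C (fun n => ((‖e‖ : ℝ) : 𝕜)⁻¹ * y n) hC (fun n => by
      have := h n
      change ‖y n‖ ≤ C * ‖((‖e‖ : ℝ) : 𝕜) * c x (n + i)‖ at this
      rw [norm_mul, hn] at this
      rw [norm_mul, norm_inv, hn, inv_mul_le_iff₀ hκ]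
      linarith)
    refine ⟨b, fun n => ?_, h2⟩
    show ((‖e‖ : ℝ) : 𝕜) * c b n = y n
    rw [h1]
    exact mul_inv_cancel_left₀ hκ' _
  · intro x
    have := (hc.vanish x).const_mul ((‖e‖ : ℝ) : 𝕜)
    rw [mul_zero] at this
    exact this
  · intro n a
    obtain ⟨b, h1, h2⟩ := exists_scaled hc e (-n) (‖e‖⁻¹ * ‖a‖)
      (Pi.single n (((‖e‖ : ℝ) : 𝕜)⁻¹ * a)) (by positivity) (fun m => by
        rw [hce]
        rcases eq_or_ne m n with rfl | hm
        · simp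
        · simp [hm, show m + -n ≠ 0 by omega])
    refine ⟨b, fun m => ?_, h2.trans_eq ?_⟩
    · show ((‖e‖ : ℝ) : 𝕜) * c b m = _
      rw [h1]
      rcases eq_or_ne m n with rfl | hm
      · rw [Pi.single_eq_same, if_pos rfl]
        exact mul_inv_cancel_left₀ hκ' _
      · rw [Pi.single_eq_of_ne hm, if_neg hm, mul_zero]
    · field_simp

theorem main [CompleteSpace X] [Nontrivial X] (hc : IsSequenceSpace c) {w : ℤ → 𝕜} {M m : ℝ}
    (hM : ∀ n, ‖w n‖ ≤ M) (hm : 0 < m) (hwm : ∀ n, m ≤ ‖w n‖) :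
    ∃ T : X ≃L[𝕜] X, IsShift c w T ∧ (∀ S : X ≃L[𝕜] X, IsShift c w S → S = T) ∧
      (PeriodicShadowingProperty T ↔ WeightCondition w) := by
  obtain ⟨S, κ, hκ, hS⟩ := exists_seq hc
  have hκ' : ((κ : ℝ) : 𝕜) ≠ 0 := by exact_mod_cast hκ.ne'
  have hw : ∀ n, w n ≠ 0 := fun n => norm_pos_iff.1 (hm.trans_le (hwm n))
  obtain ⟨T, hT⟩ := Pool.Agent.Q74.Shift.exists_shift S hM hm hwm
  have hT' : IsShift c w T := fun x n => by
    have := hT x n
    rw [hS, hS] at this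
    exact mul_left_cancel₀ hκ' (by rw [this]; ring)
  refine ⟨T, hT', fun R hR => ?_, (psp_iff_lib T).trans (Pool.Agent.Q74.Shift.psp_iff S hw hT)⟩
  ext x
  exact hc.injective (funext fun n => (hR x n).trans (hT' x n).symm)

end

theorem lp_isSequenceSpace (𝕜 : Type*) [RCLike 𝕜] (p : ℝ≥0∞) [Fact (1 ≤ p)] (hp : p ≠ ⊤) :
    IsSequenceSpace (lpCoord 𝕜 p) where
  injective := fun x y h => (Pool.Agent.Q74.Shift.lpSeq 𝕜 p hp).inj x y fun n => congrFun h n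
  solid := fun x i y h => by
    obtain ⟨b, h1, h2⟩ := (Pool.Agent.Q74.Shift.lpSeq 𝕜 p hp).dom x i 1 y zero_le_one
      (fun n => (h n).trans_eq (one_mul _).symm)
    exact ⟨b, funext h1, h2.trans_eq (one_mul _)⟩
  vanish := (Pool.Agent.Q74.Shift.lpSeq 𝕜 p hp).lim

theorem c0_isSequenceSpace (𝕜 : Type*) [RCLike 𝕜] : IsSequenceSpace (c0Coord 𝕜) where
  injective := fun x y h => (Pool.Agent.Q74.Shift.c0Seq 𝕜).inj x y fun n => congrFun h n
  solid := fun x i y h => by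
    obtain ⟨b, h1, h2⟩ := (Pool.Agent.Q74.Shift.c0Seq 𝕜).dom x i 1 y zero_le_one
      (fun n => (h n).trans_eq (one_mul _).symm)
    exact ⟨b, funext h1, h2.trans_eq (one_mul _)⟩
  vanish := (Pool.Agent.Q74.Shift.c0Seq 𝕜).lim

/-- A nonzero Banach space of sequences on `ℤ` which tend to zero, solid and translation invariant. -/
structure BanachSequenceSpace (𝕜 : Type) [RCLike 𝕜] where
  /-- the elements -/
  carrier : Type u
  [grp : NormedAddCommGroup carrier]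
  [mod : NormedSpace 𝕜 carrier]
  [complete : CompleteSpace carrier]
  [nontriv : Nontrivial carrier]
  /-- the coordinates -/
  c : carrier →ₗ[𝕜] (ℤ → 𝕜)
  isSeq : IsSequenceSpace c

attribute [instance] BanachSequenceSpace.grp BanachSequenceSpace.mod BanachSequenceSpace.complete
  BanachSequenceSpace.nontriv

/-- Invertible bounded operators. -/
abbrev Op {𝕜 : Type} [RCLike 𝕜] (E : BanachSequenceSpace.{u} 𝕜) : Type u :=
  E.carrier ≃L[𝕜] E.carrier

/-- There is exactly one invertible bounded operator of `E` acting as `B_w`, and it has the periodic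
shadowing property if and only if `WeightCondition w`. -/
def Criterion {𝕜 : Type} [RCLike 𝕜] (E : BanachSequenceSpace.{u} 𝕜) (w : ℤ → 𝕜) : Prop :=
  ∃ T : Op E, IsShift E.c w T ∧ (∀ S : Op E, IsShift E.c w S → S = T) ∧
    (PeriodicShadowingProperty T ↔ WeightCondition w)

/-- If `S` is `B_w` on `E` and `T` is `B_w` on `F`, then `S` has the periodic shadowing property if and
only if `T` has it. -/
def SamePSP {𝕜 : Type} [RCLike 𝕜] (E : BanachSequenceSpace.{u} 𝕜) (F : BanachSequenceSpace.{v} 𝕜)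
    (w : ℤ → 𝕜) : Prop :=
  ∀ (S : Op E) (T : Op F), IsShift E.c w S → IsShift F.c w T →
    (PeriodicShadowingProperty S ↔ PeriodicShadowingProperty T)

instance (𝕜 : Type) [RCLike 𝕜] (p : ℝ≥0∞) [Fact (1 ≤ p)] : Nontrivial (lp (fun _ : ℤ => 𝕜) p) := by
  classical
  have hp0 : 0 < p := zero_lt_one.trans_le (Fact.out : (1 : ℝ≥0∞) ≤ p)
  refine ⟨⟨lp.single (E := fun _ : ℤ => 𝕜) p 0 1, 0, fun h => ?_⟩⟩
  have := lp.norm_single (E := fun _ : ℤ => 𝕜) hp0 0 (1 : 𝕜)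
  rw [h, norm_zero, norm_one] at this
  exact one_ne_zero this.symm

instance (𝕜 : Type) [RCLike 𝕜] : Nontrivial C₀(ℤ, 𝕜) := by
  obtain ⟨x, hx, -⟩ := (Pool.Agent.Q74.Shift.c0Seq 𝕜).single 0 1
  refine ⟨⟨x, 0, fun h => ?_⟩⟩
  have := hx 0
  rw [h, map_zero, if_pos rfl] at this
  exact one_ne_zero this.symm

/-- `ℓ_p(ℤ)` with its usual norm and coordinates, `1 ≤ p < ∞`. -/
noncomputable def lpSpace (𝕜 : Type) [RCLike 𝕜] (p : ℝ≥0∞) [Fact (1 ≤ p)] (hp : p ≠ ⊤) :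
    BanachSequenceSpace 𝕜 where
  carrier := lp (fun _ : ℤ => 𝕜) p
  c := lpCoord 𝕜 p
  isSeq := lp_isSequenceSpace 𝕜 p hp

/-- `c₀(ℤ)` with its usual norm and coordinates. -/
noncomputable def c0Space (𝕜 : Type) [RCLike 𝕜] : BanachSequenceSpace 𝕜 where
  carrier := C₀(ℤ, 𝕜)
  c := c0Coord 𝕜
  isSeq := c0_isSequenceSpace 𝕜

/-- Let `w` be a bounded weight with `inf |w_n| > 0`.
(1) On every nonzero Banach space `E` of sequences on `ℤ` tending to zero which is solid and translation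
invariant, there is exactly one invertible bounded operator acting as `B_w`, and it has the periodic
shadowing property iff `WeightCondition w`.
(2) So of two such spaces the operator `B_w` has the property on both or on none.
(3) Answer to Q1: `B_w` has the property on `ℓ_p(ℤ)` iff it has the property on `c₀(ℤ)`. -/
theorem result (𝕜 : Type) [RCLike 𝕜] (w : ℤ → 𝕜) (hM : ∃ M : ℝ, ∀ n, ‖w n‖ ≤ M)
    (hm : ∃ m : ℝ, 0 < m ∧ ∀ n, m ≤ ‖w n‖) :
    (∀ E : BanachSequenceSpace.{u} 𝕜, Criterion E w) ∧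
    (∀ (E : BanachSequenceSpace.{u} 𝕜) (F : BanachSequenceSpace.{v} 𝕜), SamePSP E F w) ∧
    (∀ (p : ℝ≥0∞) [Fact (1 ≤ p)] (hp : p ≠ ⊤), SamePSP (lpSpace 𝕜 p hp) (c0Space 𝕜) w) := by
  obtain ⟨M, hM⟩ := hM
  obtain ⟨m, hm, hwm⟩ := hm
  have key : ∀ (E : BanachSequenceSpace.{u} 𝕜) (F : BanachSequenceSpace.{v} 𝕜), SamePSP E F w := by
    intro E F S T hS hT
    obtain ⟨S', -, h2, h3⟩ := main E.isSeq hM hm hwm
    obtain ⟨T', -, h5, h6⟩ := main F.isSeq hM hm hwm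
    rw [h2 S hS, h5 T hT, h3, h6]
  refine ⟨fun E => main E.isSeq hM hm hwm, key, fun p _ hp S T hS hT => ?_⟩
  obtain ⟨S', -, h2, h3⟩ := main (lpSpace 𝕜 p hp).isSeq hM hm hwm
  obtain ⟨T', -, h5, h6⟩ := main (c0Space 𝕜).isSeq hM hm hwm
  rw [h2 S hS, h5 T hT, h3, h6]

end Pool.Agent.Results.MP_2e038a_an.AllSequenceSpaces
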